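import Pool.Agent.helper17.EXC.SpecRA

set_option autoImplicit false

open Finset

namespace Pool.Agent.EXC

theorem FPU_fix (hACT : ACT_stmt) (hDMN : DMN_stmt) (n : ℕ) (C : Matrix (Fin n) (Fin n) ℤ) [IsC C] (F : Type) [Field F] (j0 : Fin n)
    (θ : Fin n → ℤ) (δ : Fin 5 → Fin n) (hE : IsE C j0 θ δ) : ∀ u ∈ UG C F, u (E C θ) = E C θ := by
  obtain ⟨-, h0, -, -⟩ := hDMN n C j0 θ δ hE
  intro u hu
  induction hu using Subgroup.closure_induction with
  | mem g hg =>
    obtain ⟨γ, hγ, hp, t, ht⟩ := hg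
    rw [ht (E C θ)]
    exact (hACT n C F γ t hγ).1 θ hE.th2 (h0 γ hp)
  | one => rfl
  | mul x y _ _ hx hy => rw [LinearEquiv.mul_apply, hy, hx]
  | inv x _ hx =>
    have h1 : x⁻¹ (x (E C θ)) = E C θ := by
      rw [← LinearEquiv.mul_apply, inv_mul_cancel]
      rfl
    rw [hx] at h1
    exact h1

theorem FPU_pos (n : ℕ) (i : Fin n) : Pos (sr i : Fin n → ℤ) := by
  intro k
  show (0 : ℤ) ≤ (Pi.single i 1 : Fin n → ℤ) k
  by_cases hk : k = i
  · subst hk
    simp
  · simp [hk]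

theorem FPU (hEXF : EXF_stmt) (hYST : YST_stmt) (hACT : ACT_stmt) (hDMN : DMN_stmt) (hNBR : NBR_stmt) : FPU_stmt := by
  intro n C hC F hF j0 θ δ hE
  refine ⟨FPU_fix hACT hDMN n C F j0 θ δ hE, ?_⟩
  have hfix := FPU_fix hACT hDMN n C F j0 θ δ hE
  have hnb := (hNBR n C j0 θ δ hE).1
  obtain ⟨-, -, -, hdom⟩ := hDMN n C j0 θ δ hE
  obtain ⟨-, hExE, hExa, -⟩ := hEXF n C F hnb
  intro a ha hk
  obtain ⟨g, hg, α, hα, c, hc, hac⟩ := ha
  obtain ⟨u, hu, β, hβ, c1, hc1, hgu⟩ := hYST n C F hnb g hg α hα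
  have ha2 : a = (c * c1) • u (E C β) := by rw [hac, hgu, smul_smul]
  have hcc : c * c1 ≠ 0 := mul_ne_zero hc hc1
  -- U fixes the line of E β
  have hline : ∀ v ∈ UG C F, ∃ κ : F, v (E C β) = κ • (E C β : Lm C F) := by
    intro v hv
    obtain ⟨κ, hκ⟩ := hk (u * v * u⁻¹) (Subgroup.mul_mem _ (Subgroup.mul_mem _ hu hv) (Subgroup.inv_mem _ hu))
    refine ⟨κ, ?_⟩
    have h1 : (u * v * u⁻¹) a = (c * c1) • u (v (E C β)) := by
      rw [ha2, map_smul]
      congr 1
      rw [← LinearEquiv.mul_apply, inv_mul_cancel_right]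
      rfl
    rw [h1, ha2, smul_comm κ] at hκ
    have h2 : u (v (E C β)) = κ • u (E C β) := smul_right_injective _ hcc hκ
    rw [← map_smul] at h2
    exact u.injective h2
  have hgen : ∀ i : Fin n, ∃ κ : F, xe C (E C (sr i)) 1 (E C β) = κ • (E C β : Lm C F) := by
    intro i
    obtain ⟨-, -, -, -, hx, -⟩ := hExa (E C (sr i)) (hExE (sr i) (ip_sr_self C i))
    obtain ⟨h, -, hh⟩ := hx 1
    have hU : h ∈ UG C F := Subgroup.subset_closure ⟨sr i, ip_sr_self C i, FPU_pos n i, 1, hh⟩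
    obtain ⟨κ, hκ⟩ := hline h hU
    exact ⟨κ, by rw [← hh (E C β), hκ]⟩
  have hβθ : β = θ := by
    by_contra hne
    obtain ⟨i, hi⟩ := hdom β hβ hne
    obtain ⟨κ, hκ⟩ := hgen i
    have hsr : (sr i : Fin n → ℤ) ≠ 0 := by
      intro h0
      have h1 := ip_sr_self C i
      rw [h0] at h1
      simp at h1
    rcases hi with hi | hi
    · have h1 : ip C (sr i) β = -1 := by rw [ip_comm, hi]
      have h2 := (hACT n C F (sr i) 1 (ip_sr_self C i)).2.1 β hβ h1
      rw [h2] at hκ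
      have hr : ip C (sr i + β) (sr i + β) = 2 := (add_root_iff (ip_sr_self C i) hβ).2 h1
      have h3 := congrArg (fun x : Lm C F => cf x (sr i + β)) hκ
      simp only [cf_add, cf_smul] at h3
      rw [cf_E C hβ, cf_E C hr, if_pos rfl, if_neg (fun h => hsr (by simpa using h))] at h3
      have h4 := sg_ne_zero (F := F) C (sr i) β
      apply h4
      simpa using h3
    · have h2 := (hACT n C F (sr i) 1 (ip_sr_self C i)).2.2.1
      rw [hi, h2] at hκ
      have h3 := congrArg (fun x : Lm C F => cf x (sr i)) hκ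
      simp only [cf_add, cf_sub, cf_smul, cf_ht] at h3
      have hne2 : (sr i : Fin n → ℤ) ≠ -sr i := by
        intro h
        have h5 : ip C (sr i) (sr i) = ip C (sr i) (-sr i) := congrArg (ip C (sr i)) h
        rw [ip_neg_right, ip_sr_self] at h5
        omega
      rw [cf_E C (neg_root C (ip_sr_self C i)), cf_E C (ip_sr_self C i), if_pos rfl, if_neg hne2] at h3
      simp at h3
  refine ⟨c * c1, ?_⟩
  rw [ha2, hβθ, hfix u hu]

end Pool.Agent.EXC
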